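import Pool.Agent.BEF.Stmts
import Pool.Agent.Helper69_BEF.QPW

/-! Squad BEF, row ASZ: assembly of the approximate solution as a function of time. -/

namespace Pool.Agent.BEF.H61A

open Set Filter Topology MeasureTheory
open scoped InnerProductSpace ENNReal NNReal
open Pool.Agent.BE01

noncomputable section

theorem norm_sq_le {κ : Type} [Fintype κ] (z : κ → ℝ) : ‖z‖ ^ 2 ≤ ∑ i, z i ^ 2 := by
  have h0 : 0 ≤ ∑ i, z i ^ 2 := Finset.sum_nonneg (fun i _ => sq_nonneg _)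
  have h1 : ‖z‖ ≤ √(∑ i, z i ^ 2) := by
    rw [pi_norm_le_iff_of_nonneg (Real.sqrt_nonneg _)]
    intro i
    rw [Real.norm_eq_abs, ← Real.sqrt_sq_eq_abs]
    exact Real.sqrt_le_sqrt (Finset.single_le_sum (f := fun i => z i ^ 2)
      (fun j _ => sq_nonneg _) (Finset.mem_univ i))
  calc ‖z‖ ^ 2 ≤ (√(∑ i, z i ^ 2)) ^ 2 := pow_le_pow_left₀ (norm_nonneg _) h1 2
    _ = _ := Real.sq_sqrt h0

/-- the size of the leading coefficient -/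
theorem hneg_of {X Y H : Type} [NormedCommRing X] [NormedAlgebra ℝ X]
    [NormedAddCommGroup Y] [NormedSpace ℝ Y] [NormedAddCommGroup H] [InnerProductSpace ℝ H]
    {A : Alg X Y H} (W : Wv A) {m p : ℕ} {a0 ω c : ℝ} {φ : Fin m → H} (ha0 : 0 < a0)
    (hω : 0 < ω) {F1 : Fin m ⊕ Fin m → MvPolynomial (Fin m ⊕ Fin m) ℝ}
    (hc : ∀ z : Fin m ⊕ Fin m → ℝ, c * (∑ i, z i ^ 2) ^ (p + 1) ≤
      ∫ ψ in (0 : ℝ)..(2 * Real.pi),
        ⟪A.e (W.SX ((ω ^ 3) • pw φ ψ z) ^ (2 * p + 1)), pw φ ψ z⟫_ℝ)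
    (hint : ∀ z, 2 * ω * Real.pi * ∑ i, z i * vf F1 z i = - ∫ ψ in (0 : ℝ)..(2 * Real.pi),
      ⟪a0 • A.e (W.SX ((ω ^ 3) • pw φ ψ z) ^ (2 * p + 1)), pw φ ψ z⟫_ℝ)
    (z : Fin m ⊕ Fin m → ℝ) :
    ∑ i, z i * vf F1 z i ≤ - (a0 * c / (2 * ω * Real.pi) * (∑ i, z i ^ 2) ^ (p + 1)) := by
  have h1 := hint z
  have h2 : (∫ ψ in (0 : ℝ)..(2 * Real.pi),
      ⟪a0 • A.e (W.SX ((ω ^ 3) • pw φ ψ z) ^ (2 * p + 1)), pw φ ψ z⟫_ℝ) =
      a0 * ∫ ψ in (0 : ℝ)..(2 * Real.pi),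
        ⟪A.e (W.SX ((ω ^ 3) • pw φ ψ z) ^ (2 * p + 1)), pw φ ψ z⟫_ℝ := by
    rw [← intervalIntegral.integral_const_mul]
    congr 1
    funext ψ
    rw [real_inner_smul_left]
  rw [h2] at h1
  have h3 := mul_le_mul_of_nonneg_left (hc z) ha0.le
  have hpi := Real.pi_pos
  have h4 : 0 < 2 * ω * Real.pi := by positivity
  have h5 : 2 * ω * Real.pi * ∑ i, z i * vf F1 z i ≤
      2 * ω * Real.pi * (- (a0 * c / (2 * ω * Real.pi) * (∑ i, z i ^ 2) ^ (p + 1))) := by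
    rw [h1]
    have h6 : 2 * ω * Real.pi * (- (a0 * c / (2 * ω * Real.pi) * (∑ i, z i ^ 2) ^ (p + 1))) =
        - (a0 * (c * (∑ i, z i ^ 2) ^ (p + 1))) := by
      field_simp
    rw [h6]
    exact neg_le_neg h3
  exact le_of_mul_le_mul_left h5 h4

theorem rp1 {p : ℕ} (hp : 1 ≤ p) {s : ℝ} (hs : 0 ≤ s) : (s ^ p) ^ (1 / (p : ℝ)) = s := by
  rw [← Real.rpow_natCast, ← Real.rpow_mul hs]
  have : (p : ℝ) ≠ 0 := by
    have : p ≠ 0 := by omega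
    exact_mod_cast this
  rw [mul_one_div_cancel this, Real.rpow_one]

theorem rp2 {p d : ℕ} (hp : 1 ≤ p) {x : ℝ} (hx : 0 ≤ x) :
    (x ^ (2 * p)) ^ ((d : ℝ) / (2 * p)) = x ^ d := by
  rw [← Real.rpow_natCast, ← Real.rpow_mul hx]
  have : (p : ℝ) ≠ 0 := by
    have : p ≠ 0 := by omega
    exact_mod_cast this
  have h : ((2 * p : ℕ) : ℝ) * ((d : ℝ) / (2 * p)) = d := by
    push_cast
    field_simp
  rw [h, Real.rpow_natCast]

theorem rp3 {K t k : ℝ} (hK : 0 ≤ K) (ht : 0 < t) : (K / t) ^ k = K ^ k * t ^ (-k) := by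
  rw [Real.div_rpow hK ht.le, Real.rpow_neg ht.le]
  rfl

/-- row ASZ -/
theorem asz (gli : GliStmt) (_gdv : GdvStmt) (dfl : DflStmt) (cha : ChaStmt) (gbd : GbdStmt)
    (apz : ApzStmt) (nez : NezStmt) (trz : TrzStmt) (gsm : GsmStmt) (ldx : LdxStmt)
    (lde : LdeStmt) : AszStmt := by
  intro X Y H _ _ _ _ _ _ A W m p a0 ω φ hm hp ha0 hω hE hPsv
  obtain ⟨B, hB, hldx⟩ := ldx X Y H A W m p ω φ hp hω hE
  obtain ⟨c, hc, hnez⟩ := nez X Y H A W m p ω φ hp hω hE hPsv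
  have hpp : (0 : ℝ) < p := by
    have : 0 < p := hp
    exact_mod_cast this
  have hpi := Real.pi_pos
  obtain ⟨c0, hc0⟩ : ∃ c0, c0 = a0 * c / (2 * ω * Real.pi) := ⟨_, rfl⟩
  have hc0p : 0 < c0 := by rw [hc0]; positivity
  obtain ⟨K, hK⟩ : ∃ K, K = 2 / (p * c0) := ⟨_, rfl⟩
  have hKp : 0 < K := by rw [hK]; positivity
  obtain ⟨c1, hc1⟩ : ∃ c1, c1 = a0 * ((2 * p + 1) ^ 3 * (B + 1) ^ (2 * p)) * K := ⟨_, rfl⟩
  have hc1p : 0 ≤ c1 := by rw [hc1]; positivity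
  obtain ⟨N, hN⟩ := exists_nat_ge (p * (c1 + 3))
  refine ⟨2 * (p + N) + 1, fun hS => ?_⟩
  obtain ⟨F1, F2, P, q, R, hF1, hF2, hA, hint⟩ := apz X Y H A W m p N a0 ω φ hp hω hE hS
  obtain ⟨d, hd⟩ : ∃ d, d = 2 * (p + N) + 3 := ⟨_, rfl⟩
  rw [← hd] at hA
  have hne : Nonempty (Fin m ⊕ Fin m) := ⟨Sum.inl ⟨0, hm⟩⟩
  have hneg : ∀ z : Fin m ⊕ Fin m → ℝ, ∑ i, z i * vf F1 z i ≤
      - (c0 * (∑ i, z i ^ 2) ^ (p + 1)) := by
    intro z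
    rw [hc0]
    exact hneg_of W ha0 hω hnez hint z
  obtain ⟨t1, c', z, ht1, hc', htr⟩ := trz (Fin m ⊕ Fin m) p c0 F1 F2 hp hc0p hF1 hF2 hneg
  obtain ⟨F, hF⟩ : ∃ F, F = F1 + F2 := ⟨_, rfl⟩
  rw [← hF] at hA htr
  rw [← hK] at htr
  obtain ⟨C, hC, hbd⟩ := hldx a0 d F P q R hA
  obtain ⟨δ, hδ, hen⟩ := lde X Y H A W m p a0 ω φ d F P q R hp hω hE hA
  -- the radius and the time
  obtain ⟨ρ, hρ⟩ : ∃ ρ, ρ = min δ (1 / (C + 1)) := ⟨_, rfl⟩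
  have hρ0 : 0 < ρ := by rw [hρ]; exact lt_min hδ (by positivity)
  have hρδ : ρ ≤ δ := by rw [hρ]; exact min_le_left _ _
  have hρC : ρ ≤ 1 / (C + 1) := by rw [hρ]; exact min_le_right _ _
  obtain ⟨T, hT⟩ : ∃ T, T = max t1 (K / ρ ^ (2 * p)) := ⟨_, rfl⟩
  have hT1 : t1 ≤ T := by rw [hT]; exact le_max_left _ _
  have hT2 : K / ρ ^ (2 * p) ≤ T := by rw [hT]; exact le_max_right _ _
  have hTpos : ∀ t > T, 0 < t := fun t ht => by linarith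
  have hz1 : ∀ t > T, ‖z t‖ ^ (2 * p) ≤ K / t := by
    intro t ht
    have e1 := (htr t (lt_of_le_of_lt hT1 ht)).2.2.2
    have e2 : ‖z t‖ ^ (2 * p) ≤ (∑ i, z t i ^ 2) ^ p := by
      rw [pow_mul]
      exact pow_le_pow_left₀ (sq_nonneg _) (norm_sq_le _) p
    rw [le_div_iff₀ (hTpos t ht)]
    calc ‖z t‖ ^ (2 * p) * t ≤ (∑ i, z t i ^ 2) ^ p * t :=
          mul_le_mul_of_nonneg_right e2 (hTpos t ht).le
      _ = t * (∑ i, z t i ^ 2) ^ p := mul_comm _ _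
      _ ≤ K := e1
  have hz2 : ∀ t > T, ‖z t‖ ≤ ρ := by
    intro t ht
    have e1 : K / t ≤ ρ ^ (2 * p) := by
      rw [div_le_iff₀ (hTpos t ht)]
      rw [div_le_iff₀ (by positivity)] at hT2
      have e2 : T * ρ ^ (2 * p) ≤ t * ρ ^ (2 * p) :=
        mul_le_mul_of_nonneg_right ht.le (by positivity)
      linarith
    exact (pow_le_pow_iff_left₀ (norm_nonneg _) hρ0.le (by omega)).mp ((hz1 t ht).trans e1)
  have hz3 : ∀ t > T, ‖z t‖ ≤ 1 := fun t ht => (htr t (lt_of_le_of_lt hT1 ht)).2.1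
  have hzd : ∀ t > T, HasDerivAt z (vf F (z t)) t := fun t ht =>
    (htr t (lt_of_le_of_lt hT1 ht)).1
  have hCz : ∀ t > T, C * ‖z t‖ ^ 2 ≤ ‖z t‖ := by
    intro t ht
    have e1 : C * ‖z t‖ ≤ 1 := by
      calc C * ‖z t‖ ≤ C * (1 / (C + 1)) :=
            mul_le_mul_of_nonneg_left ((hz2 t ht).trans hρC) hC
        _ ≤ 1 := by
            rw [mul_one_div, div_le_one (by positivity)]
            linarith
    calc C * ‖z t‖ ^ 2 = (C * ‖z t‖) * ‖z t‖ := by ring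
      _ ≤ 1 * ‖z t‖ := mul_le_mul_of_nonneg_right e1 (norm_nonneg _)
      _ = ‖z t‖ := one_mul _
  -- the spaces
  have hFm := hA.F_mem
  obtain ⟨q', hq', hqe⟩ := hA.q_eq
  have hq1 : q ∈ GE (Fin m ⊕ Fin m) H 1 := by
    have e1 : qw φ ∈ GE (Fin m ⊕ Fin m) H 1 :=
      (gli (Fin m ⊕ Fin m) H H (ContinuousLinearMap.id ℝ H) 1 (qw φ)).2.2.1
        (Pool.Agent.BEF.H69.qpw H m φ 0).1
    have e2 : q' ∈ GE (Fin m ⊕ Fin m) H 1 :=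
      (gli (Fin m ⊕ Fin m) H H (ContinuousLinearMap.id ℝ H) 1 q').2.2.2.1 1 hq'
    have e3 : q = (ω ^ 2) • qw φ + q' := by
      funext ψ z
      rw [hqe]
      rfl
    rw [e3]
    exact Submodule.add_mem _ (Submodule.smul_mem _ _ e1) e2
  have hPe : P = fun ψ z => W.SX (q ψ z) := by
    funext ψ z
    exact hA.P_eq ψ z
  have hP1 : P ∈ GE (Fin m ⊕ Fin m) X 1 := by
    rw [hPe]
    exact (gli (Fin m ⊕ Fin m) H X W.SX 1 q).2.1 hq1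
  have hDX : ∀ Q : ℝ → (Fin m ⊕ Fin m → ℝ) → X, ∀ e, Q ∈ GE (Fin m ⊕ Fin m) X e →
      DF ω F Q ∈ GE (Fin m ⊕ Fin m) X e := fun Q e hQ =>
    (dfl (Fin m ⊕ Fin m) X X (ContinuousLinearMap.id ℝ X) e e Q Q ω F F hQ hQ).2.2.2.2.2.2.2.2
      p hFm
  have hDH : ∀ Q : ℝ → (Fin m ⊕ Fin m → ℝ) → H, ∀ e, Q ∈ GE (Fin m ⊕ Fin m) H e →
      DF ω F Q ∈ GE (Fin m ⊕ Fin m) H e := fun Q e hQ =>
    (dfl (Fin m ⊕ Fin m) H H (ContinuousLinearMap.id ℝ H) e e Q Q ω F F hQ hQ).2.2.2.2.2.2.2.2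
      p hFm
  have hψ : ∀ t : ℝ, HasDerivAt (fun t => ω * t) ω t := by
    intro t
    have := (hasDerivAt_id t).const_mul ω
    simpa using this
  have hcX : ∀ Q : ℝ → (Fin m ⊕ Fin m → ℝ) → X, ∀ e, Q ∈ GE (Fin m ⊕ Fin m) X e →
      ∀ t > T, HasDerivAt (fun s => Q (ω * s) (z s)) (DF ω F Q (ω * t) (z t)) t :=
    fun Q e hQ t ht => cha (Fin m ⊕ Fin m) X e Q ω F (fun s => ω * s) z t hQ (hψ t) (hzd t ht)
  have hcH : ∀ Q : ℝ → (Fin m ⊕ Fin m → ℝ) → H, ∀ e, Q ∈ GE (Fin m ⊕ Fin m) H e →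
      ∀ t > T, HasDerivAt (fun s => Q (ω * s) (z s)) (DF ω F Q (ω * t) (z t)) t :=
    fun Q e hQ t ht => cha (Fin m ⊕ Fin m) H e Q ω F (fun s => ω * s) z t hQ (hψ t) (hzd t ht)
  have hm1 := hDX P 1 hP1
  have hm2 := hDX _ 1 hm1
  have hm3 := hDX _ 1 hm2
  have hR0 := hA.R_mem
  have hR1 := hDH R d hR0
  have hR2 := hDH _ d hR1
  -- bounds of the residual
  obtain ⟨N0, hN0, hb0⟩ := gbd (Fin m ⊕ Fin m) H d R hR0
  obtain ⟨N1, hN1, hb1⟩ := gbd (Fin m ⊕ Fin m) H d _ hR1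
  obtain ⟨N2, hN2, hb2⟩ := gbd (Fin m ⊕ Fin m) H d _ hR2
  obtain ⟨k, hk⟩ : ∃ k : ℝ, k = (d : ℝ) / (2 * p) := ⟨_, rfl⟩
  have hk1 : c1 + 3 < k := by
    rw [hk, lt_div_iff₀ (by positivity), hd]
    push_cast
    nlinarith
  have hw : ∀ t > T, ‖DF ω F P (ω * t) (z t)‖ + ‖DF ω F (DF ω F P) (ω * t) (z t)‖ +
      ‖DF ω F (DF ω F (DF ω F P)) (ω * t) (z t)‖ ≤ (B + 1) * ‖z t‖ := by
    intro t ht
    have e1 := hbd (ω * t) (z t) (hz3 t ht)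
    have e2 := hCz t ht
    linarith
  refine ⟨T, c1, k, B + 1, (N0 + N1 + N2) * K ^ k, ω ^ 2 / 2 * c' ^ (1 / (p : ℝ)),
    2 * ω ^ 2 * K ^ (1 / (p : ℝ)), fun t => DF ω F P (ω * t) (z t),
    fun t => DF ω F (DF ω F P) (ω * t) (z t),
    fun t => DF ω F (DF ω F (DF ω F P)) (ω * t) (z t),
    fun t => DF ω F q (ω * t) (z t), fun t => q (ω * t) (z t),
    ![fun t => R (ω * t) (z t), fun t => DF ω F R (ω * t) (z t),
      fun t => DF ω F (DF ω F R) (ω * t) (z t)], ht1.trans hT1, hc1p, by linarith, by linarith,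
    by positivity, ?_, ?_, ?_, ?_, ?_, ⟨?_, ?_, ?_⟩, ?_, ?_, ?_, ?_, ?_, ?_⟩
  · exact hcX _ 1 hm1
  · exact hcX _ 1 hm2
  · exact fun t ht => (hcX _ 1 hm3 t ht).continuousAt.continuousWithinAt
  · intro t ht
    refine (hw t ht).trans ?_
    calc (B + 1) * ‖z t‖ ≤ (B + 1) * 1 :=
          mul_le_mul_of_nonneg_left (hz3 t ht) (by linarith)
      _ = B + 1 := mul_one _
  · intro t ht
    have e1 := gsm X p ((B + 1) * ‖z t‖) _ _ _ hp (hw t ht)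
    have e2 : ((B + 1) * ‖z t‖) ^ (2 * p) ≤ (B + 1) ^ (2 * p) * (K / t) := by
      rw [mul_pow]
      exact mul_le_mul_of_nonneg_left (hz1 t ht) (by positivity)
    have e3 : (2 * (p : ℝ) + 1) ^ 3 * ((B + 1) * ‖z t‖) ^ (2 * p) ≤
        (2 * (p : ℝ) + 1) ^ 3 * ((B + 1) ^ (2 * p) * (K / t)) :=
      mul_le_mul_of_nonneg_left e2 (by positivity)
    calc a0 * gsz (2 * p + 1) (DF ω F P (ω * t) (z t)) (DF ω F (DF ω F P) (ω * t) (z t))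
          (DF ω F (DF ω F (DF ω F P)) (ω * t) (z t))
        ≤ a0 * ((2 * (p : ℝ) + 1) ^ 3 * ((B + 1) ^ (2 * p) * (K / t))) :=
          mul_le_mul_of_nonneg_left (e1.trans e3) ha0.le
      _ = c1 / t := by rw [hc1]; ring
  · exact hcH R d hR0
  · exact hcH _ d hR1
  · exact fun t ht => (hcH _ d hR2 t ht).continuousAt.continuousWithinAt
  · intro t ht
    have e0 := hb0 (ω * t) (z t) (hz3 t ht)
    have e1 := hb1 (ω * t) (z t) (hz3 t ht)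
    have e2 := hb2 (ω * t) (z t) (hz3 t ht)
    have e3 : ‖z t‖ ^ d ≤ K ^ k * t ^ (-k) := by
      rw [← rp3 hKp.le (hTpos t ht), ← rp2 (d := d) hp (norm_nonneg (z t)), ← hk]
      exact Real.rpow_le_rpow (by positivity) (hz1 t ht) (by linarith)
    show ‖R (ω * t) (z t)‖ + ‖DF ω F R (ω * t) (z t)‖ + ‖DF ω F (DF ω F R) (ω * t) (z t)‖ ≤
      (N0 + N1 + N2) * K ^ k * t ^ (-k)
    calc ‖R (ω * t) (z t)‖ + ‖DF ω F R (ω * t) (z t)‖ + ‖DF ω F (DF ω F R) (ω * t) (z t)‖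
        ≤ (N0 + N1 + N2) * ‖z t‖ ^ d := by linarith
      _ ≤ (N0 + N1 + N2) * (K ^ k * t ^ (-k)) :=
          mul_le_mul_of_nonneg_left e3 (by linarith)
      _ = _ := by ring
  · exact fun t ht => (hcH q 1 hq1 t ht).continuousAt.continuousWithinAt
  · intro t ht
    have e1 := (dfl (Fin m ⊕ Fin m) H X W.SX 1 1 q q ω F F hq1 hq1).2.2.2.2.2.2.2.1
    show DF ω F P (ω * t) (z t) = W.SX (DF ω F q (ω * t) (z t))
    rw [hPe, e1]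
  · intro t ht
    have e1 := hcX P 1 hP1 t ht
    have e2 : (fun s => W.S (q (ω * s) (z s))) = fun s => A.e (P (ω * s) (z s)) := by
      funext s
      rw [hA.P_eq, W.e_SX]
    show HasDerivAt (fun s => W.S (q (ω * s) (z s))) (A.e (DF ω F P (ω * t) (z t))) t
    rw [e2]
    exact A.e.hasFDerivAt.comp_hasDerivAt t e1
  · intro t ht
    exact (hA.res (ω * t) (z t)).symm
  · intro t ht
    have e0 := htr t (lt_of_le_of_lt hT1 ht)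
    have et := hTpos t ht
    have es : 0 ≤ ∑ i, z t i ^ 2 := Finset.sum_nonneg (fun i _ => sq_nonneg _)
    obtain ⟨e1, e2⟩ := hen (ω * t) (z t) ((hz2 t ht).trans hρδ)
    have hi : (0 : ℝ) ≤ 1 / (p : ℝ) := by positivity
    have e3 : c' ^ (1 / (p : ℝ)) * t ^ (-(1 / (p : ℝ))) ≤ ∑ i, z t i ^ 2 := by
      rw [← rp3 hc'.le et, ← rp1 hp es]
      apply Real.rpow_le_rpow (by positivity) _ hi
      rw [div_le_iff₀ et]
      linarith [e0.2.2.1]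
    have e4 : ∑ i, z t i ^ 2 ≤ K ^ (1 / (p : ℝ)) * t ^ (-(1 / (p : ℝ))) := by
      rw [← rp3 hKp.le et, ← rp1 hp es]
      apply Real.rpow_le_rpow (by positivity) _ hi
      rw [le_div_iff₀ et]
      linarith [e0.2.2.2]
    have hω2 : 0 < ω ^ 2 := by positivity
    constructor
    · calc ω ^ 2 / 2 * c' ^ (1 / (p : ℝ)) * t ^ (-(1 / (p : ℝ)))
          = ω ^ 2 / 2 * (c' ^ (1 / (p : ℝ)) * t ^ (-(1 / (p : ℝ)))) := by ring
        _ ≤ ω ^ 2 / 2 * ∑ i, z t i ^ 2 := mul_le_mul_of_nonneg_left e3 (by positivity)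
        _ ≤ _ := e1
    · calc ‖A.e (DF ω F P (ω * t) (z t))‖ ^ 2 + ‖W.R (q (ω * t) (z t))‖ ^ 2
          ≤ 2 * ω ^ 2 * ∑ i, z t i ^ 2 := e2
        _ ≤ 2 * ω ^ 2 * (K ^ (1 / (p : ℝ)) * t ^ (-(1 / (p : ℝ)))) :=
          mul_le_mul_of_nonneg_left e4 (by positivity)
        _ = _ := by ring

end

end Pool.Agent.BEF.H61A
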