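import Pool.Agent.BEF.Stmts

/-! Squad BEF, row TRZ: the trajectory. -/

namespace Pool.Agent.BEF.H61

open Set Filter Topology MeasureTheory
open scoped InnerProductSpace ENNReal NNReal
open Pool.Agent.BE01

noncomputable section

variable {κ : Type} [Fintype κ]

theorem hom_bound (f : MvPolynomial κ ℝ) (D : ℕ) (hf : f.IsHomogeneous D) :
    ∃ B : ℝ, 0 ≤ B ∧ ∀ z : κ → ℝ, |MvPolynomial.eval z f| ≤ B * ‖z‖ ^ D := by
  refine ⟨∑ d ∈ f.support, |f.coeff d|, Finset.sum_nonneg (fun _ _ => abs_nonneg _), ?_⟩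
  intro z
  rw [MvPolynomial.eval_eq', Finset.sum_mul]
  refine (Finset.abs_sum_le_sum_abs _ _).trans (Finset.sum_le_sum ?_)
  intro d hd
  rw [abs_mul]
  refine mul_le_mul_of_nonneg_left ?_ (abs_nonneg _)
  rw [Finset.abs_prod]
  have h1 : ∏ i, |z i ^ d i| ≤ ∏ i, ‖z‖ ^ d i := by
    apply Finset.prod_le_prod
    · intro i _
      exact abs_nonneg _
    · intro i _
      rw [abs_pow]
      exact pow_le_pow_left₀ (abs_nonneg _) (norm_le_pi_norm z i) _
  refine h1.trans ?_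
  rw [Finset.prod_pow_eq_pow_sum]
  have h2 : ∑ i, d i = D := by
    have h3 := hf (MvPolynomial.mem_support_iff.mp hd)
    rw [← h3, Finsupp.weight_apply, Finsupp.sum_fintype _ _ (by simp)]
    simp
  rw [h2]

theorem gp_bound (f : MvPolynomial κ ℝ) (D : ℕ) (hf : f ∈ GP κ D) :
    ∃ B : ℝ, 0 ≤ B ∧ ∀ z : κ → ℝ, ‖z‖ ≤ 1 → |MvPolynomial.eval z f| ≤ B * ‖z‖ ^ D := by
  unfold GP at hf
  refine Submodule.iSup_induction _ (motive := fun f => ∃ B : ℝ, 0 ≤ B ∧ ∀ z : κ → ℝ,
    ‖z‖ ≤ 1 → |MvPolynomial.eval z f| ≤ B * ‖z‖ ^ D) hf ?_ ?_ ?_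
  · intro k g hg
    obtain ⟨B, hB, h⟩ := hom_bound g (D + 2 * k) ((MvPolynomial.mem_homogeneousSubmodule _ _).mp hg)
    refine ⟨B, hB, fun z hz => (h z).trans (mul_le_mul_of_nonneg_left ?_ hB)⟩
    exact pow_le_pow_of_le_one (norm_nonneg _) hz (by omega)
  · refine ⟨0, le_rfl, fun z hz => ?_⟩
    simp
  · rintro g g' ⟨B, hB, h⟩ ⟨B', hB', h'⟩
    refine ⟨B + B', by positivity, fun z hz => ?_⟩
    rw [map_add, add_mul]
    exact (abs_add_le _ _).trans (add_le_add (h z hz) (h' z hz))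

theorem norm_le_sq (z : κ → ℝ) : ‖z‖ ≤ √(∑ i, z i ^ 2) := by
  rw [pi_norm_le_iff_of_nonneg (Real.sqrt_nonneg _)]
  intro i
  rw [Real.norm_eq_abs, ← Real.sqrt_sq_eq_abs]
  exact Real.sqrt_le_sqrt (Finset.single_le_sum (f := fun i => z i ^ 2)
    (fun j _ => sq_nonneg _) (Finset.mem_univ i))

theorem sum_bound {F : κ → MvPolynomial κ ℝ} {e : ℕ} (h : ∀ i, F i ∈ GP κ (2 * e + 1)) :
    ∃ C : ℝ, 0 ≤ C ∧ ∀ z : κ → ℝ, ‖z‖ ≤ 1 →
      |∑ i, z i * vf F z i| ≤ C * (∑ i, z i ^ 2) ^ (e + 1) := by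
  choose B hB hb using fun i => gp_bound (F i) (2 * e + 1) (h i)
  refine ⟨∑ i, B i, Finset.sum_nonneg (fun i _ => hB i), fun z hz => ?_⟩
  have h1 : |∑ i, z i * vf F z i| ≤ (∑ i, B i) * ‖z‖ ^ (2 * (e + 1)) := by
    rw [Finset.sum_mul]
    refine (Finset.abs_sum_le_sum_abs _ _).trans (Finset.sum_le_sum ?_)
    intro i _
    rw [abs_mul]
    have h2 := hb i z hz
    have h3 : |z i| ≤ ‖z‖ := norm_le_pi_norm z i
    calc |z i| * |vf F z i| ≤ ‖z‖ * (B i * ‖z‖ ^ (2 * e + 1)) :=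
          mul_le_mul h3 h2 (abs_nonneg _) (norm_nonneg _)
      _ = B i * ‖z‖ ^ (2 * (e + 1)) := by ring
  refine h1.trans (mul_le_mul_of_nonneg_left ?_ (Finset.sum_nonneg (fun i _ => hB i)))
  have h4 : (√(∑ i, z i ^ 2)) ^ (2 * (e + 1)) = (∑ i, z i ^ 2) ^ (e + 1) := by
    rw [pow_mul, Real.sq_sqrt (Finset.sum_nonneg (fun i _ => sq_nonneg _))]
  rw [← h4]
  exact pow_le_pow_left₀ (norm_nonneg _) (norm_le_sq z) _

/-- row TRZ -/
theorem trz (glo : GloStmt) (tru : TruStmt) : TrzStmt := by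
  intro κ _ _ p c F1 F2 hp hc h1 h2 hneg
  obtain ⟨C1, hC1, hb1⟩ := sum_bound (F := F1) (e := p) (fun i =>
    Submodule.mem_iSup_of_mem 0 ((MvPolynomial.mem_homogeneousSubmodule _ _).mpr (by
      simpa using h1 i)))
  obtain ⟨C2, hC2, hb2⟩ := sum_bound (F := F2) (e := p + 1) h2
  obtain ⟨G, K, L, hG, hGL, hGv⟩ := tru κ (F1 + F2)
  -- the radius
  obtain ⟨r, hr0, hr1, hrC⟩ : ∃ r : ℝ, 0 < r ∧ r ≤ 1 ∧ C2 * r ≤ c / 2 := by
    refine ⟨min 1 (c / (2 * (C2 + 1))), lt_min one_pos (by positivity), min_le_left _ _, ?_⟩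
    have h3 : min 1 (c / (2 * (C2 + 1))) ≤ c / (2 * (C2 + 1)) := min_le_right _ _
    calc C2 * min 1 (c / (2 * (C2 + 1))) ≤ (C2 + 1) * (c / (2 * (C2 + 1))) := by
          apply mul_le_mul (by linarith) h3 (le_of_lt (lt_min one_pos (by positivity)))
            (by linarith)
      _ = c / 2 := by field_simp
  obtain ⟨i0⟩ := ‹Nonempty κ›
  classical
  obtain ⟨z, hz0, hz⟩ := glo (κ → ℝ) G K L (Pi.single i0 (√r)) hG hGL
  obtain ⟨s, hs⟩ : ∃ s : ℝ → ℝ, ∀ t, s t = ∑ i, z t i ^ 2 := ⟨_, fun _ => rfl⟩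
  have hs0 : s 0 = r := by
    rw [hs, hz0, Finset.sum_eq_single i0]
    · rw [Pi.single_eq_same, Real.sq_sqrt hr0.le]
    · intro j _ hj
      rw [Pi.single_eq_of_ne hj]
      norm_num
    · intro h
      exact absurd (Finset.mem_univ _) h
  have hsn : ∀ t, 0 ≤ s t := fun t => by
    rw [hs]
    exact Finset.sum_nonneg (fun i _ => sq_nonneg _)
  have hsd : ∀ t, HasDerivAt s (2 * ∑ i, z t i * G (z t) i) t := by
    intro t
    have h3 : HasDerivAt (fun t => ∑ i, z t i ^ 2) (∑ i, 2 * z t i * G (z t) i) t := by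
      apply HasDerivAt.fun_sum
      intro i _
      have h4 := ((hasDerivAt_pi.mp (hz t)) i).fun_pow 2
      simpa using h4
    have h5 : s = fun t => ∑ i, z t i ^ 2 := funext hs
    rw [h5]
    have h6 : ∑ i, 2 * z t i * G (z t) i = 2 * ∑ i, z t i * G (z t) i := by
      rw [Finset.mul_sum]
      exact Finset.sum_congr rfl (fun i _ => by ring)
    rw [← h6]
    exact h3
  have hnorm : ∀ t, s t ≤ r → ‖z t‖ ≤ 1 := by
    intro t ht
    refine (norm_le_sq (z t)).trans ?_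
    rw [← hs]
    calc √(s t) ≤ √1 := Real.sqrt_le_sqrt (ht.trans hr1)
      _ = 1 := Real.sqrt_one
  -- bounds for the derivative
  have hval : ∀ t, s t ≤ r →
      ∑ i, z t i * G (z t) i = ∑ i, z t i * vf F1 (z t) i + ∑ i, z t i * vf F2 (z t) i := by
    intro t ht
    rw [hGv _ (hnorm t ht), ← Finset.sum_add_distrib]
    apply Finset.sum_congr rfl
    intro i _
    simp only [vf, Pi.add_apply, map_add]
    ring
  have hpow2 : ∀ t, s t ≤ r → C2 * s t ^ (p + 1 + 1) ≤ c / 2 * s t ^ (p + 1) := by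
    intro t ht
    calc C2 * s t ^ (p + 1 + 1) = (C2 * s t) * s t ^ (p + 1) := by ring
      _ ≤ (C2 * r) * s t ^ (p + 1) := by
          apply mul_le_mul_of_nonneg_right (mul_le_mul_of_nonneg_left ht hC2)
            (pow_nonneg (hsn t) _)
      _ ≤ c / 2 * s t ^ (p + 1) := mul_le_mul_of_nonneg_right hrC (pow_nonneg (hsn t) _)
  have hup : ∀ t, s t ≤ r → 2 * ∑ i, z t i * G (z t) i ≤ - (c * s t ^ (p + 1)) := by
    intro t ht
    rw [hval t ht]
    have e1 := hneg (z t)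
    have e2 := (abs_le.mp (hb2 (z t) (hnorm t ht))).2
    rw [← hs] at e1 e2
    have e3 := hpow2 t ht
    linarith
  have hlo : ∀ t, s t ≤ r → - ((2 * C1 + c) * s t ^ (p + 1)) ≤ 2 * ∑ i, z t i * G (z t) i := by
    intro t ht
    rw [hval t ht]
    have e1 := (abs_le.mp (hb1 (z t) (hnorm t ht))).1
    have e2 := (abs_le.mp (hb2 (z t) (hnorm t ht))).1
    rw [← hs] at e1 e2
    have e3 := hpow2 t ht
    linarith
  -- the trajectory stays in the ball
  have hsr : ∀ t, 0 ≤ t → s t ≤ r := by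
    intro t ht
    refine image_le_of_deriv_right_lt_deriv_boundary (f := s)
      (f' := fun t => 2 * ∑ i, z t i * G (z t) i) (a := 0) (b := t) (B := fun _ => r)
      (B' := fun _ => 0) ?_ ?_ hs0.le (fun x => hasDerivAt_const x r) ?_ ⟨ht, le_rfl⟩
    · exact fun x _ => (hsd x).continuousAt.continuousWithinAt
    · exact fun x _ => (hsd x).hasDerivWithinAt
    · intro x _ hx
      have e1 := hup x hx.le
      rw [hx] at e1
      have e2 : 0 < c * r ^ (p + 1) := by positivity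
      linarith
  -- positivity
  have hpos : ∀ t, 0 ≤ t → 0 < s t := by
    obtain ⟨K1, hK1⟩ : ∃ K1, K1 = (2 * C1 + c) * r ^ p := ⟨_, rfl⟩
    have hmono : MonotoneOn (fun t => s t * Real.exp (K1 * t)) (Ici 0) := by
      have hd : ∀ t, HasDerivAt (fun t => s t * Real.exp (K1 * t))
          ((2 * ∑ i, z t i * G (z t) i) * Real.exp (K1 * t) +
            s t * (Real.exp (K1 * t) * (K1 * 1))) t := by
        intro t
        exact (hsd t).mul (((hasDerivAt_id t).const_mul K1).exp)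
      apply monotoneOn_of_deriv_nonneg (convex_Ici 0)
      · exact fun t _ => (hd t).continuousAt.continuousWithinAt
      · exact fun t _ => (hd t).differentiableAt.differentiableWithinAt
      · intro t ht
        rw [interior_Ici] at ht
        rw [(hd t).deriv]
        have e1 := hlo t (hsr t (le_of_lt ht))
        have e2 : s t ^ (p + 1) ≤ r ^ p * s t := by
          rw [pow_succ]
          exact mul_le_mul_of_nonneg_right (pow_le_pow_left₀ (hsn t) (hsr t (le_of_lt ht)) p)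
            (hsn t)
        have e3 : (2 * C1 + c) * s t ^ (p + 1) ≤ K1 * s t := by
          rw [hK1, mul_assoc]
          exact mul_le_mul_of_nonneg_left e2 (by positivity)
        have e4 : 0 < Real.exp (K1 * t) := Real.exp_pos _
        have e5 : 0 ≤ (2 * ∑ i, z t i * G (z t) i) + K1 * s t := by linarith
        have e6 := mul_nonneg e5 e4.le
        linarith
    intro t ht
    have e1 := hmono (mem_Ici.mpr le_rfl) (mem_Ici.mpr ht) ht
    simp only [mul_zero, Real.exp_zero, mul_one] at e1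
    rw [hs0] at e1
    by_contra hcon
    have e2 : s t = 0 := le_antisymm (not_lt.mp hcon) (hsn t)
    rw [e2, zero_mul] at e1
    linarith
  -- the function s ^ (-p)
  have hvd : ∀ t, 0 ≤ t → HasDerivAt (fun t => (s t ^ p)⁻¹)
      (-(p * s t ^ (p - 1) * (2 * ∑ i, z t i * G (z t) i)) / (s t ^ p) ^ 2) t := by
    intro t ht
    have e1 := (hsd t).pow p
    exact e1.inv (pow_ne_zero _ (hpos t ht).ne')
  have hpp : (0 : ℝ) < p := by
    have : 0 < p := hp
    exact_mod_cast this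
  have hval2 : ∀ t, 0 ≤ t → ∀ A : ℝ,
      -(p * s t ^ (p - 1) * (-(A * s t ^ (p + 1)))) / (s t ^ p) ^ 2 = p * A := by
    intro t ht A
    have e1 := (hpos t ht).ne'
    have e2 : s t ^ (p - 1) * s t ^ (p + 1) = (s t ^ p) ^ 2 := by
      rw [← pow_add, ← pow_mul]
      congr 1
      omega
    rw [div_eq_iff (pow_ne_zero _ (pow_ne_zero _ e1)), ← e2]
    ring
  have hdlo : ∀ t, 0 ≤ t →
      p * c ≤ -(p * s t ^ (p - 1) * (2 * ∑ i, z t i * G (z t) i)) / (s t ^ p) ^ 2 := by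
    intro t ht
    rw [← hval2 t ht c]
    have e1 := hup t (hsr t ht)
    apply div_le_div_of_nonneg_right _ (by positivity)
    apply neg_le_neg
    exact mul_le_mul_of_nonneg_left e1 (mul_nonneg hpp.le (pow_nonneg (hsn t) _))
  have hdup : ∀ t, 0 ≤ t →
      -(p * s t ^ (p - 1) * (2 * ∑ i, z t i * G (z t) i)) / (s t ^ p) ^ 2 ≤
        p * (2 * C1 + c) := by
    intro t ht
    rw [← hval2 t ht (2 * C1 + c)]
    have e1 := hlo t (hsr t ht)
    apply div_le_div_of_nonneg_right _ (by positivity)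
    apply neg_le_neg
    exact mul_le_mul_of_nonneg_left e1 (mul_nonneg hpp.le (pow_nonneg (hsn t) _))
  have hv0 : (s 0 ^ p)⁻¹ = (r ^ p)⁻¹ := by rw [hs0]
  have hlow : ∀ t, 0 ≤ t → p * c * t ≤ (s t ^ p)⁻¹ := by
    intro t ht
    have hm : MonotoneOn (fun t => (s t ^ p)⁻¹ - p * c * t) (Ici 0) := by
      have hd : ∀ t, 0 ≤ t → HasDerivAt (fun t => (s t ^ p)⁻¹ - p * c * t)
          (-(p * s t ^ (p - 1) * (2 * ∑ i, z t i * G (z t) i)) / (s t ^ p) ^ 2 -
            p * c * 1) t := fun t ht =>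
        (hvd t ht).sub ((hasDerivAt_id t).const_mul (p * c))
      apply monotoneOn_of_deriv_nonneg (convex_Ici 0)
      · exact fun t ht => (hd t ht).continuousAt.continuousWithinAt
      · intro t ht
        rw [interior_Ici] at ht
        exact (hd t (le_of_lt ht)).differentiableAt.differentiableWithinAt
      · intro t ht
        rw [interior_Ici] at ht
        rw [(hd t (le_of_lt ht)).deriv]
        have := hdlo t (le_of_lt ht)
        linarith
    have e1 := hm (mem_Ici.mpr le_rfl) (mem_Ici.mpr ht) ht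
    simp only [mul_zero, sub_zero] at e1
    have e2 : 0 < (s 0 ^ p)⁻¹ := by rw [hv0]; positivity
    linarith
  have hhigh : ∀ t, 0 ≤ t → (s t ^ p)⁻¹ ≤ (r ^ p)⁻¹ + p * (2 * C1 + c) * t := by
    intro t ht
    have hm : MonotoneOn (fun t => p * (2 * C1 + c) * t - (s t ^ p)⁻¹) (Ici 0) := by
      have hd : ∀ t, 0 ≤ t → HasDerivAt (fun t => p * (2 * C1 + c) * t - (s t ^ p)⁻¹)
          (p * (2 * C1 + c) * 1 -
            -(p * s t ^ (p - 1) * (2 * ∑ i, z t i * G (z t) i)) / (s t ^ p) ^ 2) t :=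
        fun t ht => ((hasDerivAt_id t).const_mul (p * (2 * C1 + c))).sub (hvd t ht)
      apply monotoneOn_of_deriv_nonneg (convex_Ici 0)
      · exact fun t ht => (hd t ht).continuousAt.continuousWithinAt
      · intro t ht
        rw [interior_Ici] at ht
        exact (hd t (le_of_lt ht)).differentiableAt.differentiableWithinAt
      · intro t ht
        rw [interior_Ici] at ht
        rw [(hd t (le_of_lt ht)).deriv]
        have := hdup t (le_of_lt ht)
        linarith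
    have e1 := hm (mem_Ici.mpr le_rfl) (mem_Ici.mpr ht) ht
    simp only [mul_zero, zero_sub] at e1
    rw [hv0] at e1
    linarith
  refine ⟨1, ((r ^ p)⁻¹ + p * (2 * C1 + c))⁻¹, z, le_rfl, by positivity, ?_⟩
  intro t ht
  have ht0 : 0 < t := by linarith
  have hst := hsr t ht0.le
  refine ⟨?_, hnorm t hst, ?_, ?_⟩
  · rw [← hGv _ (hnorm t hst)]
    exact hz t
  · rw [← hs]
    have e1 := hhigh t ht0.le
    have e2 : 0 < s t ^ p := pow_pos (hpos t ht0.le) _
    have e3 : (s t ^ p)⁻¹ ≤ ((r ^ p)⁻¹ + p * (2 * C1 + c)) * t := by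
      have e4 : (r ^ p)⁻¹ ≤ (r ^ p)⁻¹ * t := by
        have : 0 < (r ^ p)⁻¹ := by positivity
        nlinarith
      linarith
    rw [inv_le_iff_one_le_mul₀ (by positivity)]
    rw [inv_le_iff_one_le_mul₀ e2] at e3
    calc (1 : ℝ) ≤ ((r ^ p)⁻¹ + p * (2 * C1 + c)) * t * s t ^ p := e3
      _ = t * s t ^ p * ((r ^ p)⁻¹ + p * (2 * C1 + c)) := by ring
  · rw [← hs]
    have e1 := hlow t ht0.le
    have e2 : 0 < s t ^ p := pow_pos (hpos t ht0.le) _
    rw [le_inv_comm₀ (by positivity) e2] at e1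
    have e3 : t * s t ^ p ≤ t * (p * c * t)⁻¹ := mul_le_mul_of_nonneg_left e1 ht0.le
    refine e3.trans ?_
    have e4 : t * (p * c * t)⁻¹ = 1 / (p * c) := by
      field_simp
    rw [e4]
    apply div_le_div_of_nonneg_right (by norm_num) (by positivity)

end

end Pool.Agent.BEF.H61
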